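import Pool.Agent.Work.MP_058057_co.Even
import Pool.Agent.Work.MP_058057_co.Disproof

/-! The inequality always holds; it is strict exactly when `n ≥ k (2 k + 1)` and
`(k, n) ≠ (1, 7)`. -/

namespace Pool.Agent.Results.MP_058057_co.Complete

open Pool.Agent.Work.MP_058057_co

theorem result (n k : ℕ) (hk : 1 ≤ k) :
    0 ≤ (-1 : ℤ) ^ (k - 1) * (S k n - xi n) ∧
      (0 < (-1 : ℤ) ^ (k - 1) * (S k n - xi n) ↔ k * (2 * k + 1) ≤ n ∧ ¬ (k = 1 ∧ n = 7)) := by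
  have h1 : (-1 : ℤ) ^ (k - 1) * (S k n - xi n) = cf (A k) n := by
    obtain ⟨j, rfl⟩ : ∃ j, k = j + 1 := ⟨k - 1, by omega⟩
    rw [A_eq, Nat.add_sub_cancel]
    ring
  have h2 : e k = ((k * (2 * k + 1) : ℕ) : ℤ) := by
    unfold e
    push_cast
    ring
  refine ⟨h1 ▸ (main_ind n k hk).1, fun h => ⟨?_, ?_⟩, fun h => ?_⟩
  · by_contra hlt
    rw [h1, A_vanish k (by rw [h2]; omega)] at h
    exact lt_irrefl _ h
  · rintro ⟨rfl, rfl⟩
    rw [Disproof.S_one_seven] at h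
    simp at h
  · rw [h1]
    exact (main_ind n k hk).2 (by rw [h2]; exact_mod_cast h.1) h.2

end Pool.Agent.Results.MP_058057_co.Complete
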